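import Pool.Agent.H47.C3.Main

set_option autoImplicit false

/-! Q2: the almost-sure theory of the digraphs omitting the directed triangle is not
omega-categorical. -/

namespace Pool.Agent.Results.MP_668fdd_lc.NotCategorical

open FirstOrder FirstOrder.Language Pool.H47.D

/-- The almost-sure theory `T` of the class of finite digraphs (loops allowed) with no
homomorphism from the directed triangle has two non-isomorphic countable models (both are
infinite). -/
theorem result : ∃ (M N : Type) (_ : Language.graph.Structure M) (_ : Language.graph.Structure N),
    Countable M ∧ Infinite M ∧ Countable N ∧ Infinite N ∧ M ⊨ T ∧ N ⊨ T ∧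
      ¬ Nonempty (M ≃[Language.graph] N) := main.2

end Pool.Agent.Results.MP_668fdd_lc.NotCategorical
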