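import Pool.Agent.H47.C3.Main

set_option autoImplicit false

/-! Q1: the almost-sure theory of the digraphs omitting the directed triangle is not complete. -/

namespace Pool.Agent.Results.MP_668fdd_lc.NotComplete

open FirstOrder FirstOrder.Language Pool.H47.D

/-- There is a first-order sentence such that neither it nor its negation belongs to the
almost-sure theory `T` of the class of finite digraphs (loops allowed) with no homomorphism from
the directed triangle. -/
theorem result : ∃ φ : Language.graph.Sentence, φ ∉ T ∧ φ.not ∉ T := main.1

end Pool.Agent.Results.MP_668fdd_lc.NotComplete
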